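import Pool.Agent.W5h40.WlpT.Tri

set_option autoImplicit false

open MvPolynomial

namespace Pool.Agent.W5h40.WlpT

open Pool.Agent.Helper720.Pow Pool.Agent.W5h40.Wlp Pool.Agent.W5h40.WlpO

/-- the triple of the exponents -/
def tr (w : Fin 3 →₀ ℕ) : ℕ × ℕ × ℕ := (w 0, w 1, w 2)

/-- the monomial of a triple -/
noncomputable def rt (t : ℕ × ℕ × ℕ) : Fin 3 →₀ ℕ :=
  Finsupp.equivFunOnFinite.symm ![t.1, t.2.1, t.2.2]

lemma tr_rt (t : ℕ × ℕ × ℕ) : tr (rt t) = t := rfl

lemma rt_tr (w : Fin 3 →₀ ℕ) : rt (tr w) = w := by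
  ext j
  fin_cases j <;> rfl

lemma tr_mem {d k i : ℕ} (w : Fin 3 →₀ ℕ) : tr w ∈ X3 d k i ↔ w ∈ Bs 3 d k i := by
  unfold tr
  rw [mem_X3, mem_Bs, Finsupp.degree_eq_sum]
  unfold fl
  rw [Fin.sum_univ_three, Fin.sum_univ_three]

lemma card_X3 (d k i : ℕ) : (Bs 3 d k i).card = (X3 d k i).card := by
  refine Finset.card_nbij' tr rt ?_ ?_ ?_ ?_
  · intro w hw
    exact (tr_mem w).2 hw
  · intro t ht
    rw [Finset.mem_coe] at ht ⊢
    rw [← tr_mem, tr_rt]
    exact ht
  · intro w _
    exact rt_tr w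
  · intro t _
    exact tr_rt t

lemma strict_iff (w : Fin 3 →₀ ℕ) : StrictMono ⇑w ↔ w 0 < w 1 ∧ w 1 < w 2 := by
  rw [Fin.strictMono_iff_lt_succ]
  constructor
  · intro h
    exact ⟨h 0, h 1⟩
  · rintro ⟨h1, h2⟩ j
    fin_cases j
    · exact h1
    · exact h2

lemma card_SS (d k i : ℕ) : (SS 3 d k i).card = s3 d k i := by
  unfold s3
  refine Finset.card_nbij' tr rt ?_ ?_ ?_ ?_
  · intro w hw
    rw [Finset.mem_coe, mem_SS, strict_iff] at hw
    rw [Finset.mem_coe, Finset.mem_filter, tr_mem]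
    exact hw
  · intro t ht
    rw [Finset.mem_coe, Finset.mem_filter] at ht
    rw [Finset.mem_coe, mem_SS, strict_iff, ← tr_mem, tr_rt]
    exact ht
  · intro w _
    exact rt_tr w
  · intro t _
    exact tr_rt t

/-- the multiset of a triple -/
def ms (t : ℕ × ℕ × ℕ) : Multiset ℕ := {t.1, t.2.1, t.2.2}

lemma card_Th3 (d k i : ℕ) : (Th (ex (n := 3)) d k i).card = o3 d k i := by
  unfold o3
  symm
  refine Finset.card_nbij ms ?_ ?_ ?_
  · rintro ⟨x, y, z⟩ ht
    rw [Finset.mem_coe, Finset.mem_filter, mem_X3] at ht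
    rw [Finset.mem_coe, mem_Th_ex]
    obtain ⟨⟨h1, h2⟩, _⟩ := ht
    refine ⟨rfl, ?_, ?_⟩
    · unfold ms
      simp only [Multiset.insert_eq_cons, Multiset.sum_cons, Multiset.sum_singleton]
      omega
    · unfold ms flm
      simp only [Multiset.insert_eq_cons, Multiset.sum_cons, Multiset.sum_singleton,
        Multiset.map_cons, Multiset.map_singleton]
      omega
  · rintro ⟨x, y, z⟩ ht ⟨x', y', z'⟩ ht' h
    rw [Finset.mem_coe, Finset.mem_filter] at ht ht'
    obtain ⟨_, h1, h2⟩ := ht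
    obtain ⟨_, h1', h2'⟩ := ht'
    simp only at h1 h2 h1' h2'
    have hp : [x, y, z].Perm [x', y', z'] := Multiset.coe_eq_coe.1 h
    have hs : [x, y, z].Pairwise (· ≤ ·) := by
      simp only [List.pairwise_cons, List.mem_cons, List.not_mem_nil, or_false, forall_eq_or_imp,
        forall_eq, List.Pairwise.nil, and_true, false_imp_iff, forall_const]
      omega
    have hs' : [x', y', z'].Pairwise (· ≤ ·) := by
      simp only [List.pairwise_cons, List.mem_cons, List.not_mem_nil, or_false, forall_eq_or_imp,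
        forall_eq, List.Pairwise.nil, and_true, false_imp_iff, forall_const]
      omega
    have := hp.eq_of_pairwise (fun a b _ _ hab hba => le_antisymm hab hba) hs hs'
    simp only [List.cons.injEq, and_true] at this
    rw [this.1, this.2.1, this.2.2]
  · intro M hM
    rw [Finset.mem_coe, mem_Th_ex] at hM
    obtain ⟨h1, h2, h3⟩ := hM
    obtain ⟨l, hl, hs⟩ : ∃ l : List ℕ, (l : Multiset ℕ) = M ∧ l.Pairwise (· ≤ ·) :=
      ⟨M.sort (· ≤ ·), M.sort_eq (· ≤ ·), M.pairwise_sort (· ≤ ·)⟩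
    subst hl
    rw [Multiset.coe_card] at h1
    match l, h1, hs, h2, h3 with
    | [x, y, z], _, hs, h2, h3 =>
      simp only [List.pairwise_cons, List.mem_cons, List.not_mem_nil, or_false,
        forall_eq_or_imp, forall_eq, List.Pairwise.nil, and_true, implies_true] at hs
      unfold flm at h3
      simp only [Multiset.map_coe, Multiset.sum_coe, List.map_cons, List.map_nil, List.sum_cons,
        List.sum_nil] at h2 h3
      refine ⟨(x, y, z), ?_, rfl⟩
      rw [Finset.mem_coe, Finset.mem_filter, mem_X3]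
      exact ⟨⟨by omega, by omega⟩, by simp only; omega, by simp only; omega⟩

/-- fixed points of the transposition, as a set of numbers -/
lemma F3_eq (d k i : ℕ) : F3 d k i =
    ((Finset.range (i + 1)).filter fun x => 2 * x ≤ i ∧ 2 * (x / d) + (i - 2 * x) / d < k).card := by
  unfold F3
  refine Finset.card_nbij' (fun t => t.1) (fun x => (x, x, i - 2 * x)) ?_ ?_ ?_ ?_
  · rintro ⟨x, y, z⟩ ht
    rw [Finset.mem_coe, Finset.mem_filter, mem_X3] at ht
    rw [Finset.mem_coe, Finset.mem_filter, Finset.mem_range]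
    obtain ⟨⟨h1, h2⟩, h3⟩ := ht
    simp only at h3
    subst h3
    refine ⟨by simp only; omega, by simp only; omega, ?_⟩
    simp only
    rw [show i - 2 * x = z by omega]
    omega
  · intro x hx
    rw [Finset.mem_coe, Finset.mem_filter, Finset.mem_range] at hx
    rw [Finset.mem_coe, Finset.mem_filter, mem_X3]
    exact ⟨⟨by omega, by omega⟩, rfl⟩
  · rintro ⟨x, y, z⟩ ht
    rw [Finset.mem_coe, Finset.mem_filter, mem_X3] at ht
    obtain ⟨⟨h1, h2⟩, h3⟩ := ht
    simp only at h3
    subst h3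
    simp only [Prod.mk.injEq, true_and]
    omega
  · intro x _
    rfl

end Pool.Agent.W5h40.WlpT
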