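import Pool.Agent.W5h40.Wlp.Hilb

set_option autoImplicit false

open MvPolynomial

namespace Pool.Agent.W5h40.WlpT

open Pool.Agent.Helper720.Pow Pool.Agent.W5h40.Wlp
open Pool.Agent.Helper720.Level (allMon mem_allMon card_allMon)

lemma cf1 (d : ℕ) (j : ℤ) : cf d 1 j = if 0 ≤ j ∧ j < d then 1 else 0 := by
  rw [cf_succ]
  split_ifs with h
  · rw [Finset.sum_eq_single j.toNat]
    · rw [cf_zero, if_pos]
      rw [Int.toNat_of_nonneg h.1, sub_self]
    · intro b _ hb
      rw [cf_zero, if_neg]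
      intro h2
      apply hb
      omega
    · intro h2
      exfalso
      apply h2
      rw [Finset.mem_range]
      omega
  · refine Finset.sum_eq_zero fun r hr => ?_
    rw [Finset.mem_range] at hr
    rw [cf_zero, if_neg]
    intro h2
    apply h
    omega

lemma cf2_low {d j : ℕ} (h : j < d) : cf d 2 (j : ℤ) = (j : ℤ) + 1 := by
  rw [cf_succ]
  have h1 : ∀ r ∈ Finset.range d, cf d 1 ((j : ℤ) - (r : ℤ)) =
      if r ∈ Finset.range (j + 1) then 1 else 0 := by
    intro r hr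
    rw [Finset.mem_range] at hr
    rw [cf1]
    simp only [Finset.mem_range]
    split_ifs <;> omega
  rw [Finset.sum_congr rfl h1, ← Finset.sum_filter, Finset.sum_const]
  have h2 : (Finset.range d).filter (fun r => r ∈ Finset.range (j + 1)) = Finset.range (j + 1) := by
    ext r
    simp only [Finset.mem_filter, Finset.mem_range]
    omega
  rw [h2, Finset.card_range]
  simp

lemma cf2_high {d j : ℕ} (h : d ≤ j + 1) : cf d 2 (j : ℤ) = ((2 * d - 1 - j : ℕ) : ℤ) := by
  rw [cf_succ]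
  have h1 : ∀ r ∈ Finset.range d, cf d 1 ((j : ℤ) - (r : ℤ)) =
      if r ∈ Finset.Ico (j + 1 - d) d then 1 else 0 := by
    intro r hr
    rw [Finset.mem_range] at hr
    rw [cf1]
    simp only [Finset.mem_Ico]
    split_ifs <;> omega
  rw [Finset.sum_congr rfl h1, ← Finset.sum_filter, Finset.sum_const]
  have h2 : (Finset.range d).filter (fun r => r ∈ Finset.Ico (j + 1 - d) d) =
      Finset.Ico (j + 1 - d) d := by
    ext r
    simp only [Finset.mem_filter, Finset.mem_range, Finset.mem_Ico]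
    omega
  rw [h2, Nat.card_Ico]
  simp only [nsmul_eq_mul, mul_one]
  congr 1
  omega

/-- the difference of the Hilbert function for `n = 3` -/
lemma card_diff {d k i e : ℕ} (hd : 1 ≤ d) (hk : 2 ≤ k) (he1 : 1 ≤ e) (hed : e ≤ d)
    (hi : i + 2 = k * d + e) :
    2 * (((Bs 3 d k i).card : ℤ) - (Bs 3 d k (i + 1)).card) =
      (k : ℤ) * (((k : ℤ) + 3) * e - 2 * d) := by
  obtain ⟨κ, rfl⟩ : ∃ κ, k = κ + 2 := ⟨k - 2, by omega⟩
  have h1 : ((Bs 3 d (κ + 2) (i + 1)).card : ℤ) - (Bs 3 d (κ + 2) i).card =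
      ∑ q ∈ Finset.range (κ + 2), ((allMon 3 q).card : ℤ) * Df d 3 ((i + 1 : ℕ) - d * q) := by
    rw [count_Bs hd, count_Bs hd, ← Finset.sum_sub_distrib]
    refine Finset.sum_congr rfl fun q _ => ?_
    unfold Df
    rw [← mul_sub]
    congr 3
    push_cast
    ring
  have hi' : (i : ℤ) + 2 = ((κ : ℤ) + 2) * d + e := by exact_mod_cast hi
  have h2 : ∀ q ∈ Finset.range κ,
      ((allMon 3 q).card : ℤ) * Df d 3 ((i + 1 : ℕ) - d * q) = 0 := by
    intro q hq
    rw [Finset.mem_range] at hq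
    obtain ⟨t, rfl⟩ := Nat.exists_eq_add_of_lt hq
    have e1 : (((i + 1 : ℕ) : ℤ) - d * q) = ((t * d + 3 * d + e - 1 : ℕ) : ℤ) := by
      rw [Nat.cast_sub (by omega)]
      push_cast at hi' ⊢
      linarith
    have e2 : (((t * d + 3 * d + e - 1 : ℕ) : ℤ) - d) = ((t * d + 2 * d + e - 1 : ℕ) : ℤ) := by
      rw [Nat.cast_sub (by omega), Nat.cast_sub (by omega)]
      push_cast
      ring
    rw [e1, Df_succ, e2, cf2_high (by omega), cf2_high (by omega),
      show 2 * d - 1 - (t * d + 3 * d + e - 1) = 0 by omega,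
      show 2 * d - 1 - (t * d + 2 * d + e - 1) = 0 by omega]
    simp
  rw [Finset.sum_range_succ, Finset.sum_range_succ, Finset.sum_eq_zero h2, zero_add] at h1
  have h3 : Df d 3 ((i + 1 : ℕ) - d * κ) = (e : ℤ) - d := by
    have e1 : (((i + 1 : ℕ) : ℤ) - d * κ) = ((2 * d + e - 1 : ℕ) : ℤ) := by
      rw [Nat.cast_sub (by omega)]
      push_cast
      linarith
    have e2 : (((2 * d + e - 1 : ℕ) : ℤ) - d) = ((d + e - 1 : ℕ) : ℤ) := by
      rw [Nat.cast_sub (by omega), Nat.cast_sub (by omega)]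
      push_cast
      ring
    rw [e1, Df_succ, e2, cf2_high (by omega), cf2_high (by omega),
      show 2 * d - 1 - (2 * d + e - 1) = 0 by omega, show 2 * d - 1 - (d + e - 1) = d - e by omega,
      Nat.cast_sub hed]
    push_cast
    ring
  have h4 : Df d 3 ((i + 1 : ℕ) - d * ((κ + 1 : ℕ) : ℤ)) = (d : ℤ) - 2 * e := by
    have e1 : (((i + 1 : ℕ) : ℤ) - d * ((κ + 1 : ℕ) : ℤ)) = ((d + e - 1 : ℕ) : ℤ) := by
      rw [Nat.cast_sub (by omega)]
      push_cast
      linarith
    have e2 : (((d + e - 1 : ℕ) : ℤ) - d) = ((e - 1 : ℕ) : ℤ) := by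
      rw [Nat.cast_sub (by omega), Nat.cast_sub (by omega)]
      push_cast
      ring
    rw [e1, Df_succ, e2, cf2_high (by omega), cf2_low (by omega),
      show 2 * d - 1 - (d + e - 1) = d - e by omega, Nat.cast_sub hed, Nat.cast_sub he1]
    push_cast
    ring
  have h5 : ∀ q : ℕ, 2 * ((allMon 3 q).card : ℤ) = ((q : ℤ) + 1) * (q + 2) := by
    intro q
    rw [card_allMon, show 3 + q - 1 = q + 2 by omega, Nat.choose_symm_add]
    have := Nat.choose_two_right (q + 2)
    have h6 : 2 ∣ (q + 2) * (q + 2 - 1) := by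
      rw [show q + 2 - 1 = q + 1 by omega, mul_comm]
      exact (Nat.even_mul_succ_self (q + 1)).two_dvd
    have h7 : 2 * (q + 2).choose 2 = (q + 2) * (q + 1) := by
      rw [this, Nat.mul_div_cancel' h6, show q + 2 - 1 = q + 1 by omega]
    have h8 : (2 : ℤ) * ((q + 2).choose 2 : ℤ) = ((q + 2) * (q + 1) : ℕ) := by
      rw [← h7]
      push_cast
      ring
    rw [h8]
    push_cast
    ring
  rw [h3, h4] at h1
  have h6 := h5 κ
  have h7 := h5 (κ + 1)
  have h8 : 2 * (((Bs 3 d (κ + 2) i).card : ℤ) - (Bs 3 d (κ + 2) (i + 1)).card) =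
      -(2 * ((allMon 3 κ).card : ℤ)) * ((e : ℤ) - d) -
        (2 * ((allMon 3 (κ + 1)).card : ℤ)) * (d - 2 * e) := by
    linear_combination (-2 : ℤ) * h1
  rw [h8, h6, h7]
  push_cast
  ring

end Pool.Agent.W5h40.WlpT
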