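import Pool.Agent.W5h40.WlpT.Bridge

set_option autoImplicit false

open MvPolynomial

namespace Pool.Agent.W5h40.WlpT

open Pool.Agent.Helper720.Pow Pool.Agent.W5h40.Wlp Pool.Agent.W5h40.WlpO

/-- the common part -/
def UU (d k i e : ℕ) : Finset ℕ :=
  (Finset.range (i + 2)).filter fun x => 2 * x ≤ i + 1 ∧ 2 * (x / d) < k ∧ e ≤ 2 * (x % d) + 1

lemma cond_iff {d k i e x : ℕ} (hd : 1 ≤ d) (hi : i + 2 = k * d + e) (hx : 2 * x ≤ i) :
    2 * (x / d) + (i - 2 * x) / d < k ↔ 2 * (x / d) < k ∧ e ≤ 2 * (x % d) + 1 := by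
  obtain ⟨q, hq⟩ : ∃ q, q = x / d := ⟨_, rfl⟩
  obtain ⟨r, hr⟩ : ∃ r, r = x % d := ⟨_, rfl⟩
  have hxd := Nat.div_add_mod x d
  rw [← hq, ← hr] at hxd ⊢
  by_cases h : 2 * q < k
  · obtain ⟨s, rfl⟩ := Nat.exists_eq_add_of_lt h
    have e1 : (2 * q + s + 1) * d = 2 * (d * q) + (s + 1) * d := by ring
    have h1 : 2 * q + (i - 2 * x) / d < 2 * q + s + 1 ↔ (i - 2 * x) / d < s + 1 := by omega
    rw [h1, Nat.div_lt_iff_lt_mul (by omega)]
    rw [e1] at hi
    constructor
    · intro h2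
      exact ⟨by omega, by omega⟩
    · rintro ⟨_, h2⟩
      omega
  · constructor
    · intro h2
      exact absurd (lt_of_le_of_lt (Nat.le_add_right _ _) h2) h
    · rintro ⟨h2, _⟩
      exact absurd h2 h

lemma cond_iff' {d k i e x : ℕ} (hd : 1 ≤ d) (hi : i + 2 = k * d + e) (hx : 2 * x ≤ i + 1) :
    2 * (x / d) + (i + 1 - 2 * x) / d < k ↔ 2 * (x / d) < k ∧ e ≤ 2 * (x % d) := by
  obtain ⟨q, hq⟩ : ∃ q, q = x / d := ⟨_, rfl⟩
  obtain ⟨r, hr⟩ : ∃ r, r = x % d := ⟨_, rfl⟩
  have hxd := Nat.div_add_mod x d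
  rw [← hq, ← hr] at hxd ⊢
  by_cases h : 2 * q < k
  · obtain ⟨s, rfl⟩ := Nat.exists_eq_add_of_lt h
    have e1 : (2 * q + s + 1) * d = 2 * (d * q) + (s + 1) * d := by ring
    have h1 : 2 * q + (i + 1 - 2 * x) / d < 2 * q + s + 1 ↔ (i + 1 - 2 * x) / d < s + 1 := by omega
    rw [h1, Nat.div_lt_iff_lt_mul (by omega)]
    rw [e1] at hi
    constructor
    · intro h2
      exact ⟨by omega, by omega⟩
    · rintro ⟨_, h2⟩
      omega
  · constructor
    · intro h2
      exact absurd (lt_of_le_of_lt (Nat.le_add_right _ _) h2) h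
    · rintro ⟨h2, _⟩
      exact absurd h2 h

lemma F3_diff {d k i e : ℕ} (hd : 1 ≤ d) (he : Odd e) (hed : e ≤ d)
    (hi : i + 2 = k * d + e) :
    ∃ u, u ≤ 1 ∧ F3 d k i + u = F3 d k (i + 1) + (k + 1) / 2 ∧ (u = 1 → Odd k ∧ Even d) := by
  have hA : (Finset.range (i + 1)).filter
      (fun x => 2 * x ≤ i ∧ 2 * (x / d) + (i - 2 * x) / d < k) =
      (UU d k i e).filter fun x => ¬ 2 * x = i + 1 := by
    ext x
    unfold UU
    simp only [Finset.mem_filter, Finset.mem_range]
    constructor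
    · rintro ⟨h1, h2, h3⟩
      rw [cond_iff hd hi h2] at h3
      exact ⟨⟨by omega, by omega, h3⟩, by omega⟩
    · rintro ⟨⟨h1, h2, h3⟩, h4⟩
      have h5 : 2 * x ≤ i := by omega
      exact ⟨by omega, h5, (cond_iff hd hi h5).2 h3⟩
  have hB : (Finset.range (i + 1 + 1)).filter
      (fun x => 2 * x ≤ i + 1 ∧ 2 * (x / d) + (i + 1 - 2 * x) / d < k) =
      (UU d k i e).filter fun x => ¬ 2 * (x % d) + 1 = e := by
    ext x
    unfold UU
    simp only [Finset.mem_filter, Finset.mem_range]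
    constructor
    · rintro ⟨h1, h2, h3⟩
      rw [cond_iff' hd hi h2] at h3
      exact ⟨⟨by omega, h2, h3.1, by omega⟩, by omega⟩
    · rintro ⟨⟨h1, h2, h3, h5⟩, h4⟩
      exact ⟨by omega, h2, (cond_iff' hd hi h2).2 ⟨h3, by omega⟩⟩
  have hU1 := Finset.card_filter_add_card_filter_not (s := UU d k i e) (fun x => 2 * x = i + 1)
  have hU2 := Finset.card_filter_add_card_filter_not (s := UU d k i e)
    (fun x => 2 * (x % d) + 1 = e)
  have hcard : ((UU d k i e).filter fun x => 2 * (x % d) + 1 = e).card = (k + 1) / 2 := by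
    have himg : ((UU d k i e).filter fun x => 2 * (x % d) + 1 = e) =
        (Finset.range ((k + 1) / 2)).image fun a => a * d + (e - 1) / 2 := by
      obtain ⟨f, rfl⟩ := he
      ext x
      unfold UU
      simp only [Finset.mem_filter, Finset.mem_range, Finset.mem_image]
      constructor
      · rintro ⟨⟨h1, h2, h3, h4⟩, h5⟩
        refine ⟨x / d, by omega, ?_⟩
        have hxd := Nat.div_add_mod x d
        rw [mul_comm] at hxd
        omega
      · rintro ⟨a, ha, rfl⟩
        have e1 : (a * d + (2 * f + 1 - 1) / 2) / d = a := by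
          rw [Nat.add_comm, Nat.add_mul_div_right _ _ (by omega), Nat.div_eq_of_lt (by omega),
            zero_add]
        have e2 : (a * d + (2 * f + 1 - 1) / 2) % d = f := by
          rw [Nat.add_comm, Nat.add_mul_mod_self_right, Nat.mod_eq_of_lt (by omega)]
          omega
        rw [e1, e2]
        obtain ⟨s, hs⟩ : ∃ s, k = 2 * a + s + 1 := ⟨k - 2 * a - 1, by omega⟩
        have e3 : k * d = 2 * (a * d) + s * d + d := by
          rw [hs]
          ring
        refine ⟨⟨by omega, by omega, by omega, by omega⟩, rfl⟩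
    rw [himg, Finset.card_image_of_injective, Finset.card_range]
    intro a b hab
    simp only at hab
    have : a * d = b * d := by omega
    exact Nat.eq_of_mul_eq_mul_right (by omega) this
  refine ⟨((UU d k i e).filter fun x => 2 * x = i + 1).card, ?_, ?_, ?_⟩
  · rw [Finset.card_le_one]
    intro x hx y hy
    rw [Finset.mem_filter] at hx hy
    omega
  · rw [F3_eq, F3_eq, hA, hB]
    omega
  · intro h1
    obtain ⟨x, hx⟩ := Finset.card_pos.1 (show 0 < ((UU d k i e).filter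
      fun x => 2 * x = i + 1).card by omega)
    unfold UU at hx
    simp only [Finset.mem_filter, Finset.mem_range] at hx
    obtain ⟨⟨_, _, h3, h4⟩, h5⟩ := hx
    obtain ⟨f, rfl⟩ := he
    have hxd := Nat.div_add_mod x d
    have hmod := Nat.mod_lt x (show 0 < d by omega)
    have hko : Odd k := by
      by_contra hk
      rw [Nat.not_odd_iff_even] at hk
      obtain ⟨κ, rfl⟩ := hk
      obtain ⟨s, hs⟩ : ∃ s, κ = x / d + s + 1 := ⟨κ - x / d - 1, by omega⟩
      have e3 : (κ + κ) * d = 2 * (d * (x / d)) + 2 * (s * d) + 2 * d := by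
        rw [hs]
        ring
      omega
    refine ⟨hko, ?_⟩
    by_contra hde
    rw [Nat.not_even_iff_odd] at hde
    obtain ⟨t, ht⟩ := hko.mul hde
    omega

end Pool.Agent.W5h40.WlpT
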