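import Pool.Agent.W5h40.WlpT.Fix
import Pool.Agent.W5h40.WlpT.Diff
import Pool.Agent.W5h40.Wlp.Main

set_option autoImplicit false

open MvPolynomial

namespace Pool.Agent.W5h40.WlpT

open Pool.Agent.Helper720.Pow Pool.Agent.W5h40.Wlp Pool.Agent.W5h40.WlpO

/-- the counting: under `S_3` there are more orbits in degree `i` and more free orbits in degree
`i + 1` -/
theorem counts {d k i e : ℕ} (hd : 1 ≤ d) (hk : 3 ≤ k) (he : Odd e) (hi : i + 2 = k * d + e)
    (h : (k + 3) * e = 2 * d ∨ (k + 3) * e = 2 * d + 1 ∨ (k + 3) * e + 1 = 2 * d ∨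
      (((k + 3) * e = 2 * d + 2 ∨ (k + 3) * e + 2 = 2 * d) ∧ k ≠ 3 ∧ k ≠ 7)) :
    o3 d k (i + 1) < o3 d k i ∧ s3 d k i < s3 d k (i + 1) := by
  have h6 : 6 * e ≤ (k + 3) * e := Nat.mul_le_mul_right _ (by omega)
  have he1 : 1 ≤ e := he.pos
  have hed : e ≤ d := by omega
  have hH := card_diff hd (by omega) he1 hed hi
  obtain ⟨u, hu1, hu2, hu3⟩ := F3_diff hd he hed hi
  have b0 := burnside d k i
  have b1 := burnside d k (i + 1)
  have t0 := T3_le d k i
  have t1 := T3_le d k (i + 1)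
  rw [card_X3, card_X3] at hH
  rw [o3_eq, o3_eq]
  have hZ : ((k : ℤ) + 3) * e = ((k + 3) * e : ℕ) := by push_cast; ring
  rw [hZ] at hH
  have hpar : Even ((k + 3) * e) → Odd k := by
    intro h1
    rw [Nat.even_mul] at h1
    rcases h1 with h1 | h1
    · by_contra hk2
      rw [Nat.not_odd_iff_even] at hk2
      obtain ⟨a, ha⟩ := hk2
      obtain ⟨b, hb⟩ := h1
      omega
    · exact absurd he (Nat.not_odd_iff_even.2 h1)
  have hpar' : Odd ((k + 3) * e) → Even k := by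
    intro h1
    rw [Nat.odd_mul] at h1
    obtain ⟨⟨a, ha⟩, _⟩ := h1
    exact ⟨a - 1, by omega⟩
  rcases h with h | h | h | ⟨h | h, hk3, hk7⟩
  · rw [h] at hH
    have e1 : (k : ℤ) * (((2 * d : ℕ) : ℤ) - 2 * d) = 0 := by push_cast; ring
    rw [e1] at hH
    obtain ⟨a, ha⟩ := hpar ⟨d, by omega⟩
    omega
  · rw [h] at hH
    have e1 : (k : ℤ) * (((2 * d + 1 : ℕ) : ℤ) - 2 * d) = k := by push_cast; ring
    rw [e1] at hH
    have hke := hpar' ⟨d, by omega⟩
    have hu0 : u = 0 := by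
      by_contra hcon
      exact absurd (hu3 (by omega)).1 (Nat.not_odd_iff_even.2 hke)
    obtain ⟨a, ha⟩ := hke
    omega
  · have h' : (k + 3) * e = 2 * d - 1 := by omega
    rw [h'] at hH
    have e1 : (k : ℤ) * (((2 * d - 1 : ℕ) : ℤ) - 2 * d) = - k := by
      rw [Nat.cast_sub (by omega)]
      push_cast
      ring
    rw [e1] at hH
    have hke := hpar' ⟨d - 1, by omega⟩
    have hu0 : u = 0 := by
      by_contra hcon
      exact absurd (hu3 (by omega)).1 (Nat.not_odd_iff_even.2 hke)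
    obtain ⟨a, ha⟩ := hke
    omega
  · rw [h] at hH
    have e1 : (k : ℤ) * (((2 * d + 2 : ℕ) : ℤ) - 2 * d) = 2 * k := by push_cast; ring
    rw [e1] at hH
    obtain ⟨a, ha⟩ := hpar ⟨d + 1, by omega⟩
    rcases (by omega : k = 5 ∨ 9 ≤ k) with hk5 | hk9
    · subst hk5
      have hu0 : u = 0 := by
        by_contra hcon
        obtain ⟨b, hb⟩ := (hu3 (by omega)).2
        obtain ⟨c, hc⟩ := he
        omega
      omega
    · omega
  · have h' : (k + 3) * e = 2 * d - 2 := by omega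
    rw [h'] at hH
    have e1 : (k : ℤ) * (((2 * d - 2 : ℕ) : ℤ) - 2 * d) = - (2 * k) := by
      rw [Nat.cast_sub (by omega)]
      push_cast
      ring
    rw [e1] at hH
    obtain ⟨a, ha⟩ := hpar ⟨d - 1, by omega⟩
    rcases (by omega : k = 5 ∨ 9 ≤ k) with hk5 | hk9
    · subst hk5
      have hu0 : u = 0 := by
        by_contra hcon
        obtain ⟨b, hb⟩ := (hu3 (by omega)).2
        obtain ⟨c, hc⟩ := he
        omega
      omega
    · omega

theorem not_maxRank3 {K : Type*} [Field K] [CharZero K] {d k i e : ℕ} (hd : 1 ≤ d) (hk : 3 ≤ k)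
    (he : Odd e) (hi : i + 2 = k * d + e)
    (h : (k + 3) * e = 2 * d ∨ (k + 3) * e = 2 * d + 1 ∨ (k + 3) * e + 1 = 2 * d ∨
      (((k + 3) * e = 2 * d + 2 ∨ (k + 3) * e + 2 = 2 * d) ∧ k ≠ 3 ∧ k ≠ 7))
    {L : MvPolynomial (Fin 3) K} (hL : L.IsHomogeneous 1) :
    ¬ MaxRank (powIdeal K 3 d k) L i := by
  obtain ⟨h1, h2⟩ := counts hd hk he hi h
  intro hm
  rcases maxRank_test hd hL hm with h3 | h3
  · refine not_inj_of_types (ex (n := 3)) hd
      (fun w _ w' _ h Φ => by rw [ex_compat, ex_compat, h]) ?_ h3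
    rw [card_Th3, card_Th3]
    exact h1
  · refine not_surj_strict hd ?_ h3
    rw [card_SS, card_SS]
    exact h2

end Pool.Agent.W5h40.WlpT
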