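import Pool.Agent.W5h40.WlpE.Crit

set_option autoImplicit false

open MvPolynomial

namespace Pool.Agent.W5h40.WlpT

open Pool.Agent.Helper720.Pow Pool.Agent.W5h40.Wlp Pool.Agent.W5h40.WlpE

variable {K : Type*} [Field K] {n : ℕ}

lemma fact_add_single (m : Fin n →₀ ℕ) (c : Fin n) :
    fact (m + Finsupp.single c 1) = fact m * (m c + 1) := by
  have h1 := fact_sub (m + Finsupp.single c 1) (c := c) (by simp)
  rw [add_tsub_cancel_right] at h1
  rw [h1]
  simp [mul_comm]

/-- A function on the monomials which is killed by the lowering obstructs surjectivity. -/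
lemma not_surj_of_fun [CharZero K] {d k i : ℕ} (hd : 1 ≤ d) (c : (Fin n →₀ ℕ) → K)
    (hsupp : ∀ w, c w ≠ 0 → w ∈ Bs n d k (i + 1)) (hne : ∃ w, c w ≠ 0)
    (hrel : ∀ m : Fin n →₀ ℕ, ∑ j, c (m + Finsupp.single j 1) = 0) : ¬ SurjAt K n d k i 1 := by
  classical
  set F : MvPolynomial (Fin n) K :=
    toPoly K n d k (i + 1) (fun w => c w / (fact (w : Fin n →₀ ℕ) : K)) with hF
  have hfz : ∀ m : Fin n →₀ ℕ, (fact m : K) ≠ 0 := fun m => Nat.cast_ne_zero.2 (fact_ne_zero m)
  have hcoeff : ∀ w : Fin n →₀ ℕ, coeff w F = c w / (fact w : K) := by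
    intro w
    by_cases hw : w ∈ Bs n d k (i + 1)
    · have := coeff_toPoly (fun w : ↥(Bs n d k (i + 1)) => c w / (fact (w : Fin n →₀ ℕ) : K)) ⟨w, hw⟩
      exact this
    · rw [hF, coeff_toPoly_notMem _ hw]
      have : c w = 0 := by
        by_contra hcon
        exact hw (hsupp w hcon)
      rw [this, zero_div]
  refine not_surj_of_dual hd F ?_ (toPoly_hom _) ?_ ?_
  · obtain ⟨w, hw⟩ := hne
    intro h0
    have := hcoeff w
    rw [h0, coeff_zero] at this
    exact (div_ne_zero hw (hfz w)) this.symm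
  · ext m
    rw [coeff_sum, coeff_zero]
    have h1 : ∀ j : Fin n, coeff m (pderiv j F) = c (m + Finsupp.single j 1) / (fact m : K) := by
      intro j
      rw [coeff_pderiv, hcoeff, fact_add_single]
      have h2 : ((m j : K) + 1) ≠ 0 := by
        have := Nat.cast_ne_zero (R := K).2 (Nat.succ_ne_zero (m j))
        push_cast at this
        exact this
      push_cast
      field_simp
    rw [Finset.sum_congr rfl fun j _ => h1 j, ← Finset.sum_div, hrel, zero_div]
  · intro m hm
    rw [mem_support_iff, hcoeff] at hm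
    have : c m ≠ 0 := by
      intro h
      rw [h, zero_div] at hm
      exact hm rfl
    exact (mem_Bs.1 (hsupp m this)).2

/-- permuted exponents -/
noncomputable def pm (σ : Equiv.Perm (Fin n)) (w : Fin n →₀ ℕ) : Fin n →₀ ℕ :=
  Finsupp.equivFunOnFinite.symm fun j => w (σ j)

lemma pm_apply (σ : Equiv.Perm (Fin n)) (w : Fin n →₀ ℕ) (j : Fin n) : pm σ w j = w (σ j) := rfl

lemma pm_add (σ : Equiv.Perm (Fin n)) (w : Fin n →₀ ℕ) (j : Fin n) :
    pm σ (w + Finsupp.single j 1) = pm σ w + Finsupp.single (σ⁻¹ j) 1 := by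
  ext a
  rw [pm_apply, Finsupp.add_apply, Finsupp.add_apply, pm_apply, Finsupp.single_apply,
    Finsupp.single_apply]
  congr 1
  by_cases h : j = σ a
  · rw [if_pos h, if_pos (by rw [h]; simp)]
  · rw [if_neg h, if_neg]
    rintro rfl
    apply h
    simp

lemma pm_mem {d k i : ℕ} (σ : Equiv.Perm (Fin n)) (w : Fin n →₀ ℕ) :
    pm σ w ∈ Bs n d k i ↔ w ∈ Bs n d k i := by
  rw [mem_Bs, mem_Bs, Finsupp.degree_eq_sum, Finsupp.degree_eq_sum]
  unfold fl
  have h1 : ∑ j, pm σ w j = ∑ j, w j := Equiv.sum_comp σ (fun j => w j)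
  have h2 : ∑ j, pm σ w j / d = ∑ j, w j / d := Equiv.sum_comp σ (fun j => w j / d)
  rw [h1, h2]

/-- the monomials with strictly increasing exponents -/
noncomputable def SS (n d k i : ℕ) : Finset (Fin n →₀ ℕ) := by
  classical exact (Bs n d k i).filter fun w => StrictMono ⇑w

lemma mem_SS {d k i : ℕ} {w : Fin n →₀ ℕ} : w ∈ SS n d k i ↔ w ∈ Bs n d k i ∧ StrictMono ⇑w := by
  classical
  unfold SS
  rw [Finset.mem_filter]

lemma add_notMem {d k i : ℕ} {m : Fin n →₀ ℕ} (hm : m ∉ Bs n d k i) (j : Fin n) :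
    m + Finsupp.single j 1 ∉ Bs n d k (i + 1) := by
  intro h
  apply hm
  have := sub_mem_Bs h (c := j) (by simp)
  rwa [add_tsub_cancel_right] at this

/-- Non-surjectivity by counting the free orbits of the symmetric group. -/
theorem not_surj_strict [CharZero K] {d k i : ℕ} (hd : 1 ≤ d)
    (hcard : (SS n d k i).card < (SS n d k (i + 1)).card) : ¬ SurjAt K n d k i 1 := by
  classical
  let ext : (↥(SS n d k (i + 1)) → K) → (Fin n →₀ ℕ) → K := fun Φ w =>
    if h : w ∈ SS n d k (i + 1) then Φ ⟨w, h⟩ else 0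
  have ext_add : ∀ Φ Φ' w, ext (Φ + Φ') w = ext Φ w + ext Φ' w := by
    intro Φ Φ' w
    simp only [ext]
    split_ifs
    · rfl
    · rw [add_zero]
  have ext_smul : ∀ (r : K) Φ w, ext (r • Φ) w = r * ext Φ w := by
    intro r Φ w
    simp only [ext]
    split_ifs
    · rfl
    · rw [mul_zero]
  let L : (↥(SS n d k (i + 1)) → K) →ₗ[K] (↥(SS n d k i) → K) :=
    { toFun := fun Φ m => ∑ j, ext Φ ((m : Fin n →₀ ℕ) + Finsupp.single j 1)
      map_add' := by
        intro Φ Φ'
        funext m
        rw [Pi.add_apply, ← Finset.sum_add_distrib]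
        exact Finset.sum_congr rfl fun c _ => by rw [ext_add]
      map_smul' := by
        intro r Φ
        funext m
        rw [Pi.smul_apply, smul_eq_mul, RingHom.id_apply, Finset.mul_sum]
        exact Finset.sum_congr rfl fun c _ => by rw [ext_smul] }
  have hker : LinearMap.ker L ≠ ⊥ := by
    apply LinearMap.ker_ne_bot_of_finrank_lt
    rw [Module.finrank_fintype_fun_eq_card, Module.finrank_fintype_fun_eq_card, Fintype.card_coe,
      Fintype.card_coe]
    exact hcard
  obtain ⟨Φ, hΦ, hΦ0⟩ := (Submodule.ne_bot_iff _).1 hker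
  rw [LinearMap.mem_ker] at hΦ
  obtain ⟨w₀, hw₀⟩ : ∃ w₀, Φ w₀ ≠ 0 := by
    by_contra hcon
    push Not at hcon
    exact hΦ0 (funext hcon)
  have hext : ∀ w, ext Φ w ≠ 0 → w ∈ SS n d k (i + 1) := by
    intro w hw
    by_contra hcon
    apply hw
    simp only [ext]
    rw [dif_neg hcon]
  -- the relation on sorted monomials
  have hE : ∀ m : Fin n →₀ ℕ, Function.Injective ⇑m →
      ∑ j, ext Φ (m + Finsupp.single j 1) = 0 := by
    intro m hinj
    by_cases hm : m ∈ SS n d k i
    · exact congrFun hΦ ⟨m, hm⟩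
    · refine Finset.sum_eq_zero fun j _ => ?_
      by_contra hcon
      have h1 := mem_SS.1 (hext _ hcon)
      apply hm
      rw [mem_SS]
      refine ⟨?_, ?_⟩
      · by_contra h2
        exact add_notMem h2 j h1.1
      · intro a b hab
        have h2 := h1.2 hab
        rw [Finsupp.add_apply, Finsupp.add_apply, Finsupp.single_apply, Finsupp.single_apply] at h2
        have h3 : m a ≤ m b := by
          split_ifs at h2 <;> omega
        exact lt_of_le_of_ne h3 fun h4 => (ne_of_lt hab) (hinj h4)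
  refine not_surj_of_fun hd (fun w => ∑ σ : Equiv.Perm (Fin n),
    ((Equiv.Perm.sign σ : ℤ) : K) * ext Φ (pm σ w)) ?_ ?_ ?_
  · intro w hw
    obtain ⟨σ, _, hσ⟩ := Finset.exists_ne_zero_of_sum_ne_zero hw
    have := (mem_SS.1 (hext _ (right_ne_zero_of_mul hσ))).1
    rwa [pm_mem] at this
  · refine ⟨w₀, ?_⟩
    rw [Finset.sum_eq_single 1]
    · have h1 : pm 1 (w₀ : Fin n →₀ ℕ) = w₀ := by
        ext j
        rfl
      rw [h1]
      simp only [ext]
      rw [dif_pos w₀.2]
      simpa using hw₀
    · intro σ _ hσ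
      by_contra hcon
      apply hσ
      have h1 := (mem_SS.1 (hext _ (right_ne_zero_of_mul hcon))).2
      have h0 := (mem_SS.1 w₀.2).2
      have h2 : StrictMono σ := by
        intro a b hab
        have := h1 hab
        rw [pm_apply, pm_apply] at this
        exact h0.lt_iff_lt.1 this
      have h3 : (StrictMono.orderIsoOfSurjective σ h2 σ.surjective) = OrderIso.refl (Fin n) :=
        Subsingleton.elim _ _
      ext a
      have h4 := congrArg (fun f : Fin n ≃o Fin n => f a) h3
      simp only [StrictMono.coe_orderIsoOfSurjective, OrderIso.refl_apply] at h4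
      rw [h4]
      rfl
    · intro h
      exact absurd (Finset.mem_univ _) h
  · intro m
    rw [Finset.sum_comm]
    have h1 : ∀ σ : Equiv.Perm (Fin n), ∑ j, ((Equiv.Perm.sign σ : ℤ) : K) *
        ext Φ (pm σ (m + Finsupp.single j 1)) =
        ((Equiv.Perm.sign σ : ℤ) : K) * ∑ j, ext Φ (pm σ m + Finsupp.single j 1) := by
      intro σ
      rw [Finset.mul_sum]
      rw [← Equiv.sum_comp σ⁻¹ (fun j => ((Equiv.Perm.sign σ : ℤ) : K) *
        ext Φ (pm σ m + Finsupp.single j 1))]
      exact Finset.sum_congr rfl fun j _ => by rw [pm_add]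
    rw [Finset.sum_congr rfl fun σ _ => h1 σ]
    by_cases hinj : Function.Injective ⇑m
    · refine Finset.sum_eq_zero fun σ _ => ?_
      rw [hE (pm σ m), mul_zero]
      intro a b hab
      rw [pm_apply, pm_apply] at hab
      exact σ.injective (hinj hab)
    · unfold Function.Injective at hinj
      push Not at hinj
      obtain ⟨a, b, hab, hne⟩ := hinj
      set g : Equiv.Perm (Fin n) → K := fun σ =>
        ((Equiv.Perm.sign σ : ℤ) : K) * ∑ j, ext Φ (pm σ m + Finsupp.single j 1) with hg
      have h2 : ∀ σ, g (Equiv.swap a b * σ) = - g σ := by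
        intro σ
        have h3 : pm (Equiv.swap a b * σ) m = pm σ m := by
          ext j
          rw [pm_apply, pm_apply, Equiv.Perm.mul_apply]
          rcases eq_or_ne (σ j) a with h | h
          · rw [h, Equiv.swap_apply_left, hab]
          · rcases eq_or_ne (σ j) b with h' | h'
            · rw [h', Equiv.swap_apply_right, hab]
            · rw [Equiv.swap_apply_of_ne_of_ne h h']
        simp only [hg]
        rw [h3, Equiv.Perm.sign_mul, Equiv.Perm.sign_swap hne]
        push_cast
        ring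
      have h4 : ∑ σ, g σ = - ∑ σ, g σ := by
        rw [← Finset.sum_neg_distrib, ← Equiv.sum_comp (Equiv.mulLeft (Equiv.swap a b)) g]
        exact Finset.sum_congr rfl fun σ _ => h2 σ
      have h5 : (2 : K) * ∑ σ, g σ = 0 := by
        rw [two_mul]
        nth_rewrite 2 [h4]
        rw [add_neg_cancel]
      exact (mul_eq_zero.1 h5).resolve_left two_ne_zero

end Pool.Agent.W5h40.WlpT
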