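import Pool.Agent.W5h40.WlpT.Strict
import Pool.Agent.W5h40.WlpO.Orb

set_option autoImplicit false

open MvPolynomial

namespace Pool.Agent.W5h40.WlpT

open Pool.Agent.Helper720.Pow Pool.Agent.W5h40.Wlp Pool.Agent.W5h40.WlpO

/-- the exponent triples -/
def X3 (d k i : ℕ) : Finset (ℕ × ℕ × ℕ) :=
  (Finset.range (i + 1) ×ˢ Finset.range (i + 1) ×ˢ Finset.range (i + 1)).filter fun t =>
    t.1 + t.2.1 + t.2.2 = i ∧ t.1 / d + t.2.1 / d + t.2.2 / d < k

lemma mem_X3 {d k i x y z : ℕ} :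
    (x, y, z) ∈ X3 d k i ↔ x + y + z = i ∧ x / d + y / d + z / d < k := by
  unfold X3
  simp only [Finset.mem_filter, Finset.mem_product, Finset.mem_range]
  constructor
  · exact fun h => h.2
  · intro h
    exact ⟨⟨by omega, by omega, by omega⟩, h⟩

lemma swA (d k i : ℕ) (p : ℕ × ℕ × ℕ → Prop) [DecidablePred p] :
    ((X3 d k i).filter p).card = ((X3 d k i).filter fun t => p (t.2.1, t.1, t.2.2)).card := by
  refine Finset.card_nbij' (fun t => (t.2.1, t.1, t.2.2)) (fun t => (t.2.1, t.1, t.2.2)) ?_ ?_ ?_ ?_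
  · rintro ⟨x, y, z⟩ h
    simp only [Finset.coe_filter, Set.mem_ofPred_eq, mem_X3] at h ⊢
    exact ⟨⟨by omega, by omega⟩, h.2⟩
  · rintro ⟨x, y, z⟩ h
    simp only [Finset.coe_filter, Set.mem_ofPred_eq, mem_X3] at h ⊢
    exact ⟨⟨by omega, by omega⟩, h.2⟩
  · rintro ⟨x, y, z⟩ _
    rfl
  · rintro ⟨x, y, z⟩ _
    rfl

lemma swB (d k i : ℕ) (p : ℕ × ℕ × ℕ → Prop) [DecidablePred p] :
    ((X3 d k i).filter p).card = ((X3 d k i).filter fun t => p (t.1, t.2.2, t.2.1)).card := by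
  refine Finset.card_nbij' (fun t => (t.1, t.2.2, t.2.1)) (fun t => (t.1, t.2.2, t.2.1)) ?_ ?_ ?_ ?_
  · rintro ⟨x, y, z⟩ h
    simp only [Finset.coe_filter, Set.mem_ofPred_eq, mem_X3] at h ⊢
    exact ⟨⟨by omega, by omega⟩, h.2⟩
  · rintro ⟨x, y, z⟩ h
    simp only [Finset.coe_filter, Set.mem_ofPred_eq, mem_X3] at h ⊢
    exact ⟨⟨by omega, by omega⟩, h.2⟩
  · rintro ⟨x, y, z⟩ _
    rfl
  · rintro ⟨x, y, z⟩ _
    rfl

/-- free orbits -/
def s3 (d k i : ℕ) : ℕ := ((X3 d k i).filter fun t => t.1 < t.2.1 ∧ t.2.1 < t.2.2).card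

/-- orbits -/
def o3 (d k i : ℕ) : ℕ := ((X3 d k i).filter fun t => t.1 ≤ t.2.1 ∧ t.2.1 ≤ t.2.2).card

/-- fixed points of a transposition -/
def F3 (d k i : ℕ) : ℕ := ((X3 d k i).filter fun t => t.1 = t.2.1).card

/-- fixed points of a three-cycle -/
def T3 (d k i : ℕ) : ℕ := ((X3 d k i).filter fun t => t.1 = t.2.1 ∧ t.2.1 = t.2.2).card

lemma T3_le (d k i : ℕ) : T3 d k i ≤ 1 := by
  unfold T3
  rw [Finset.card_le_one]
  rintro ⟨x, y, z⟩ h ⟨x', y', z'⟩ h'
  simp only [Finset.mem_filter, mem_X3] at h h'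
  have h1 : x = x' := by omega
  have h2 : y = y' := by omega
  have h3 : z = z' := by omega
  rw [h1, h2, h3]

lemma pt (x y z : ℕ) : 1 + 2 * (if x = y ∧ y = z then 1 else 0) =
    (if x < y ∧ y < z then 1 else 0) + (if y < x ∧ x < z then 1 else 0) +
    (if x < z ∧ z < y then 1 else 0) + (if z < x ∧ x < y then 1 else 0) +
    (if y < z ∧ z < x then 1 else 0) + (if z < y ∧ y < x then 1 else 0) +
    (if x = y then 1 else 0) + (if x = z then 1 else 0) + (if y = z then 1 else 0) := by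
  rcases lt_trichotomy x y with h1 | rfl | h1
  · rcases lt_trichotomy y z with h2 | rfl | h2
    · have h3 := h1.trans h2
      simp [h1, h2, h3, h1.ne, h2.ne, h3.ne, h1.not_gt, h2.not_gt, h3.not_gt]
    · simp [h1, h1.ne, h1.not_gt]
    · rcases lt_trichotomy x z with h3 | rfl | h3
      · simp [h1, h2, h3, h1.ne, h2.ne', h3.ne, h1.not_gt, h2.not_gt, h3.not_gt]
      · simp [h1, h1.ne, h1.ne', h1.not_gt]
      · simp [h1, h2, h3, h1.ne, h2.ne', h3.ne', h1.not_gt, h2.not_gt, h3.not_gt]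
  · rcases lt_trichotomy x z with h2 | rfl | h2
    · simp [h2, h2.ne, h2.not_gt]
    · simp
    · simp [h2, h2.ne', h2.not_gt]
  · rcases lt_trichotomy y z with h2 | rfl | h2
    · rcases lt_trichotomy x z with h3 | rfl | h3
      · simp [h1, h2, h3, h1.ne', h2.ne, h3.ne, h1.not_gt, h2.not_gt, h3.not_gt]
      · simp [h1, h1.ne, h1.ne', h1.not_gt]
      · simp [h1, h2, h3, h1.ne', h2.ne, h3.ne', h1.not_gt, h2.not_gt, h3.not_gt]
    · simp [h1, h1.ne', h1.not_gt]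
    · have h3 := h2.trans h1
      simp [h1, h2, h3, h1.ne', h2.ne', h3.ne', h1.not_gt, h2.not_gt, h3.not_gt]

lemma burnside (d k i : ℕ) :
    (X3 d k i).card + 2 * T3 d k i = 6 * s3 d k i + 3 * F3 d k i := by
  have a1 := swA d k i (fun t => t.1 < t.2.1 ∧ t.2.1 < t.2.2)
  have a2 := swB d k i (fun t => t.1 < t.2.1 ∧ t.2.1 < t.2.2)
  have a3 := swB d k i (fun t => t.2.1 < t.1 ∧ t.1 < t.2.2)
  have a4 := swA d k i (fun t => t.1 < t.2.2 ∧ t.2.2 < t.2.1)
  have a5 := swA d k i (fun t => t.2.2 < t.1 ∧ t.1 < t.2.1)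
  have b1 := swB d k i (fun t => t.1 = t.2.1)
  have b2 := swA d k i (fun t => t.1 = t.2.2)
  simp only at a1 a2 a3 a4 a5 b1 b2
  have key : (X3 d k i).card + 2 * ((X3 d k i).filter fun t => t.1 = t.2.1 ∧ t.2.1 = t.2.2).card =
      ((X3 d k i).filter fun t => t.1 < t.2.1 ∧ t.2.1 < t.2.2).card +
      ((X3 d k i).filter fun t => t.2.1 < t.1 ∧ t.1 < t.2.2).card +
      ((X3 d k i).filter fun t => t.1 < t.2.2 ∧ t.2.2 < t.2.1).card +
      ((X3 d k i).filter fun t => t.2.2 < t.1 ∧ t.1 < t.2.1).card +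
      ((X3 d k i).filter fun t => t.2.1 < t.2.2 ∧ t.2.2 < t.1).card +
      ((X3 d k i).filter fun t => t.2.2 < t.2.1 ∧ t.2.1 < t.1).card +
      ((X3 d k i).filter fun t => t.1 = t.2.1).card +
      ((X3 d k i).filter fun t => t.1 = t.2.2).card +
      ((X3 d k i).filter fun t => t.2.1 = t.2.2).card := by
    simp only [Finset.card_filter, Finset.card_eq_sum_ones (X3 d k i)]
    rw [Finset.mul_sum]
    simp only [← Finset.sum_add_distrib]
    refine Finset.sum_congr rfl fun t _ => ?_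
    obtain ⟨x, y, z⟩ := t
    exact pt x y z
  unfold T3 s3 F3
  omega

lemma o3_eq (d k i : ℕ) : o3 d k i = s3 d k i + F3 d k i := by
  have c1 := swB d k i (fun t => t.1 = t.2.1 ∧ t.2.2 < t.2.1)
  have c2 := swA d k i (fun t => t.1 = t.2.2 ∧ t.2.1 < t.2.2)
  simp only at c1 c2
  have key1 : ((X3 d k i).filter fun t => t.1 ≤ t.2.1 ∧ t.2.1 ≤ t.2.2).card =
      ((X3 d k i).filter fun t => t.1 < t.2.1 ∧ t.2.1 < t.2.2).card +
      ((X3 d k i).filter fun t => t.1 = t.2.1 ∧ t.2.1 < t.2.2).card +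
      ((X3 d k i).filter fun t => t.2.1 = t.2.2 ∧ t.1 < t.2.2).card +
      ((X3 d k i).filter fun t => t.1 = t.2.1 ∧ t.2.1 = t.2.2).card := by
    simp only [Finset.card_filter]
    simp only [← Finset.sum_add_distrib]
    refine Finset.sum_congr rfl fun t _ => ?_
    obtain ⟨x, y, z⟩ := t
    simp only
    split_ifs <;> omega
  have key2 : ((X3 d k i).filter fun t => t.1 = t.2.1).card =
      ((X3 d k i).filter fun t => t.1 = t.2.1 ∧ t.2.1 < t.2.2).card +
      ((X3 d k i).filter fun t => t.1 = t.2.1 ∧ t.2.2 < t.2.1).card +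
      ((X3 d k i).filter fun t => t.1 = t.2.1 ∧ t.2.1 = t.2.2).card := by
    simp only [Finset.card_filter]
    simp only [← Finset.sum_add_distrib]
    refine Finset.sum_congr rfl fun t _ => ?_
    obtain ⟨x, y, z⟩ := t
    simp only
    split_ifs <;> omega
  unfold o3 s3 F3
  omega

end Pool.Agent.W5h40.WlpT
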